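import Pool.Agent.D0H17.SH.Defs
import Pool.Agent.D0H65.GE.M1

/-! Project SH (helper17), module N0 (helper65): the scales. -/

set_option autoImplicit false

namespace Pool.Agent.D0H65.SH

open Finset Filter Pool.Agent.D0H17.GE Pool.Agent.D0H17.SH

/-- N0: the scales -/
theorem facts (n : ℕ) (K Λ : ℝ) (hK : 1 ≤ K) (T : ℕ) : ∃ j0 : ℕ, 1 ≤ j0 ∧ ∀ j : ℕ, j0 ≤ j →
    SN Λ K n j T (pp K ((n : ℝ) + 2) j) ∧ ∀ i ≤ T, 32 * (j : ℝ) ^ 2 ≤ pp K ((n : ℝ) + 2) j i := by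
  have hn : (1 : ℝ) < (n : ℝ) + 2 := by
    have : (0 : ℝ) ≤ n := Nat.cast_nonneg n
    linarith
  obtain ⟨j0, hj0, h⟩ := Pool.Agent.D0H65.GE.facts ((n : ℝ) + 2) ((n : ℝ) + 2) K |Λ| hn le_rfl hK T
  refine ⟨j0, hj0, fun j hj => ?_⟩
  obtain ⟨h1, h2⟩ := h j hj ((n : ℝ) + 2) le_rfl le_rfl
  have hj' : (0 : ℝ) ≤ 1 / (j : ℝ) := by positivity
  have hSF := h1 ((n : ℝ) + 2) le_rfl (by linarith)
  have hpos := fun i => Pool.Agent.D0H65.GE.pp_pos K ((n : ℝ) + 2) hK j i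
  refine ⟨⟨fun i hi => (le_abs_self Λ).trans (hSF.big i hi), hSF.top, fun i _ => ?_, fun i hi => ?_⟩, h2⟩
  · have e1 : pp K ((n : ℝ) + 2) j (i + 1) = K * pp K ((n : ℝ) + 2) j i ^ (1 - 1 / ((n : ℝ) + 2)) := by
      rw [pp]
    rw [e1, mul_pow]
    have e2 : (pp K ((n : ℝ) + 2) j i ^ (1 - 1 / ((n : ℝ) + 2))) ^ (n + 2) =
        pp K ((n : ℝ) + 2) j i ^ (n + 1) := by
      rw [← Real.rpow_natCast, ← Real.rpow_mul (hpos i).le]
      have e3 : (1 - 1 / ((n : ℝ) + 2)) * ((n + 2 : ℕ) : ℝ) = ((n + 1 : ℕ) : ℝ) := by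
        push_cast
        field_simp
        ring
      rw [e3, Real.rpow_natCast]
    rw [e2]
  · have h3 := hSF.lgap i hi
    have h4 : Real.exp |Λ| * pp K ((n : ℝ) + 2) j (i + 1) ≤ pp K ((n : ℝ) + 2) j i := by
      have h5 : Real.log (pp K ((n : ℝ) + 2) j (i + 1)) + |Λ| ≤ Real.log (pp K ((n : ℝ) + 2) j i) := by
        linarith
      have h6 := Real.exp_le_exp.2 h5
      rw [Real.exp_add, Real.exp_log (hpos _), Real.exp_log (hpos _)] at h6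
      linarith
    refine le_trans (mul_le_mul_of_nonneg_right ?_ (hpos _).le) h4
    have h7 := Real.add_one_le_exp |Λ|
    have h8 := le_abs_self Λ
    linarith

end Pool.Agent.D0H65.SH
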